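import Pool.Agent.Helper74.DI.St

set_option autoImplicit false

namespace Pool.Agent.Helper22.DI

open Pool.Agent.Helper74 Pool.Agent.Helper74.DI
open Pool.Agent.Helper74.NM (NC)

section

variable {G H : Type} {R : G → G → Prop} {S : H → H → Prop} {φ ψ : G → H} {P : G → Prop}

theorem par_fwd (hP : ∀ x y, R x y → P x ∧ P y)
    (h1 : ∀ x y, P x → P y → (R x y ↔ S (φ x) (ψ y)))
    (h2 : ∀ x y, P x → P y → (R x y ↔ S (ψ x) (φ y))) (w : List G) (hw : NC R w) :
    (∀ x ∈ w, P x) ∧ ∀ b : Bool, NC S (cl φ ψ b w) := by
  induction hw with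
  | nil => exact ⟨by simp, fun b => NC.nil⟩
  | wrap x y u v hxy hu _ ihu ihv =>
    refine ⟨?_, ?_⟩
    · intro z hz
      rcases List.mem_cons.1 hz with rfl | hz
      · exact (hP _ _ hxy).1
      · rcases List.mem_append.1 hz with hz | hz
        · exact ihu.1 z hz
        · rcases List.mem_cons.1 hz with rfl | hz
          · exact (hP _ _ hxy).2
          · exact ihv.1 z hz
    · intro b
      have hev := nc_even u hu
      have e : cl φ ψ b (x :: (u ++ y :: v)) = (if b then φ x else ψ x) ::
          (cl φ ψ (!b) u ++ (if !b then φ y else ψ y) :: cl φ ψ b v) := by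
        rw [cl, cl_append, if_pos hev, cl, Bool.not_not]
      rw [e]
      refine NC.wrap _ _ _ _ ?_ (ihu.2 _) (ihv.2 _)
      obtain ⟨px, py⟩ := hP _ _ hxy
      cases b
      · simpa using (h2 x y px py).1 hxy
      · simpa using (h1 x y px py).1 hxy

theorem par_bwd (h1 : ∀ x y, P x → P y → (R x y ↔ S (φ x) (ψ y)))
    (h2 : ∀ x y, P x → P y → (R x y ↔ S (ψ x) (φ y))) (z : List H) (hz : NC S z) :
    ∀ (b : Bool) (w : List G), z = cl φ ψ b w → (∀ x ∈ w, P x) → NC R w := by
  induction hz with
  | nil =>
    intro b w hw _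
    have h := congrArg List.length hw
    rw [cl_length] at h
    have : w = [] := List.length_eq_zero_iff.1 (by simpa using h.symm)
    rw [this]
    exact NC.nil
  | wrap c d p q hcd hp _ ihp ihq =>
    intro b w hw hPw
    rcases w with _ | ⟨x, w1⟩
    · simp [cl] at hw
    · rw [cl] at hw
      obtain ⟨hc, hw⟩ := List.cons.inj hw
      have hlen : p.length + (q.length + 1) = w1.length := by
        have := congrArg List.length hw
        rw [cl_length] at this
        simpa using this
      have hu : (w1.take p.length).length = p.length := by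
        rw [List.length_take]
        omega
      have hsplit : w1 = w1.take p.length ++ w1.drop p.length := (List.take_append_drop _ _).symm
      obtain ⟨u, hu'⟩ : ∃ u, u = w1.take p.length := ⟨_, rfl⟩
      obtain ⟨t, ht'⟩ : ∃ t, t = w1.drop p.length := ⟨_, rfl⟩
      rw [← hu', ← ht'] at hsplit
      rw [← hu'] at hu
      have hev : Even u.length := by rw [hu]; exact nc_even p hp
      rw [hsplit, cl_append, if_pos hev] at hw
      obtain ⟨hp1, hq1⟩ := List.append_inj hw (by rw [cl_length, hu])
      rcases t with _ | ⟨y, v⟩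
      · simp [cl] at hq1
      · rw [cl, Bool.not_not] at hq1
        obtain ⟨hd, hq2⟩ := List.cons.inj hq1
        rw [hsplit]
        have hPx : P x := hPw x (by simp)
        have hPu : ∀ x ∈ u, P x := fun a ha => hPw a (by
          rw [hsplit]
          exact List.mem_cons_of_mem _ (List.mem_append_left _ ha))
        have hPy : P y := hPw y (by
          rw [hsplit]
          exact List.mem_cons_of_mem _ (List.mem_append_right _ (by simp)))
        have hPv : ∀ x ∈ v, P x := fun a ha => hPw a (by
          rw [hsplit]
          exact List.mem_cons_of_mem _ (List.mem_append_right _ (List.mem_cons_of_mem _ ha)))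
        refine NC.wrap x y u v ?_ (ihp (!b) u hp1 hPu) (ihq b v hq2 hPv)
        rw [hc, hd] at hcd
        cases b
        · exact (h2 x y hPx hPy).2 (by simpa using hcd)
        · exact (h1 x y hPx hPy).2 (by simpa using hcd)

end

theorem hPAR : StPAR := by
  intro G H R S φ ψ P hP h1 h2 w
  constructor
  · intro hw
    obtain ⟨a, b⟩ := par_fwd hP h1 h2 w hw
    exact ⟨a, b true⟩
  · rintro ⟨a, b⟩
    exact par_bwd h1 h2 _ b true w rfl a

end Pool.Agent.Helper22.DI
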